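import Mathlib
import Pool.Agent.TH504.CB.Red4
import Pool.Agent.TH504.CB.DerK
import Pool.Agent.TH504.CB.Trans

/-!
# Decomposition of an abelian variety with many independent periods
-/

set_option linter.unusedSectionVars false

namespace Pool.Agent.Q63.MP

open Matrix Module Pool.Agent.W437.HC Pool.Agent.W437.HD Pool.Agent.W437.HP Pool.Agent.W437.HQ
  Pool.Agent.TH504.CB Pool.Agent.H204R3.CM Pool.Agent.W437.HR Pool.Agent.TH504.VY

noncomputable section

/-- A decomposition of the abelian variety in simple ones. -/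
structure Dec {G : ℕ} (Z : Matrix (Fin G) (Fin G) ℂ) {ι : Type} [Fintype ι] (g : ι → ℕ)
    (Y : ∀ i, Matrix (Fin (g i)) (Fin (g i)) ℂ)
    (E : ∀ i, Matrix (Fin G ⊕ Fin G) (Fin (g i) ⊕ Fin (g i)) ℚ)
    (F : ∀ i, Matrix (Fin (g i) ⊕ Fin (g i)) (Fin G ⊕ Fin G) ℚ) : Prop where
  symm : ∀ i, (Y i)ᵀ = Y i
  pos : ∀ i, (imM (Y i)).PosDef
  simple : ∀ i, IsSimpleAV (Y i)
  fe : ∀ i, F i * E i = 1
  orth : ∀ i j, i ≠ j → F i * E j = 0
  tot : ∑ i, E i * F i = 1
  je : ∀ i, JR Z * cK ℝ (E i) = cK ℝ (E i) * JR (Y i)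
  gpos : ∀ i, 0 < g i

variable {G : ℕ} {Z : Matrix (Fin G) (Fin G) ℂ} {ι : Type} [Fintype ι] [DecidableEq ι] {g : ι → ℕ}
  {Y : ∀ i, Matrix (Fin (g i)) (Fin (g i)) ℂ}
  {E : ∀ i, Matrix (Fin G ⊕ Fin G) (Fin (g i) ⊕ Fin (g i)) ℚ}
  {F : ∀ i, Matrix (Fin (g i) ⊕ Fin (g i)) (Fin G ⊕ Fin G) ℚ}

namespace Dec

variable (h : Dec Z g Y E F)
include h

theorem det (i : ι) : IsUnit (imM (Y i)).det := (h.pos i).isUnit.map Matrix.detMonoidHom

theorem jf (i : ι) : cK ℝ (F i) * JR Z = JR (Y i) * cK ℝ (F i) := by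
  have h1 : JR Z = ∑ j, cK ℝ (E j) * JR (Y j) * cK ℝ (F j) := by
    calc JR Z = JR Z * cK ℝ (∑ j, E j * F j) := by rw [h.tot, cK_one, Matrix.mul_one]
      _ = ∑ j, cK ℝ (E j) * JR (Y j) * cK ℝ (F j) := by
        rw [cK_sum, Matrix.mul_sum]
        refine Finset.sum_congr rfl fun j _ => ?_
        rw [cK_mul, ← Matrix.mul_assoc, h.je]
  rw [h1, Matrix.mul_sum, Finset.sum_eq_single i]
  · rw [← Matrix.mul_assoc, ← Matrix.mul_assoc, ← cK_mul, h.fe, cK_one, Matrix.one_mul]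
  · intro j _ hj
    rw [← Matrix.mul_assoc, ← Matrix.mul_assoc, ← cK_mul, h.orth i j hj.symm, cK_zero,
      Matrix.zero_mul, Matrix.zero_mul]
  · intro hi
    exact absurd (Finset.mem_univ i) hi

/-- The homology is the sum of the homologies of the factors. -/
theorem sum_fe (x : Fin G ⊕ Fin G → ℚ) : ∑ i, E i *ᵥ (F i *ᵥ x) = x := by
  calc ∑ i, E i *ᵥ (F i *ᵥ x) = (∑ i, E i * F i) *ᵥ x := by
        rw [Matrix.sum_mulVec]
        exact Finset.sum_congr rfl fun i _ => mulVec_mulVec _ _ _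
    _ = x := by rw [h.tot, one_mulVec]

theorem fe_apply (i j : ι) (x : Fin (g j) ⊕ Fin (g j) → ℚ) :
    F i *ᵥ (E j *ᵥ x) = if e : i = j then (e ▸ x : Fin (g i) ⊕ Fin (g i) → ℚ) else 0 := by
  rw [mulVec_mulVec]
  split_ifs with e
  · subst e
    rw [h.fe, one_mulVec]
  · rw [h.orth i j e, zero_mulVec]

/-- The isomorphism of the homology with the product. -/
def eqv : (Fin G ⊕ Fin G → ℚ) ≃ₗ[ℚ] ∀ i, Fin (g i) ⊕ Fin (g i) → ℚ where
  toFun x := fun i => F i *ᵥ x
  map_add' x y := by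
    funext i
    exact mulVec_add _ _ _
  map_smul' c x := by
    funext i
    exact mulVec_smul _ _ _
  invFun y := ∑ i, E i *ᵥ y i
  left_inv x := h.sum_fe x
  right_inv y := by
    funext i
    change F i *ᵥ (∑ j, E j *ᵥ y j) = y i
    rw [mulVec_sum, Finset.sum_eq_single i]
    · rw [mulVec_mulVec, h.fe, one_mulVec]
    · intro j _ hj
      rw [mulVec_mulVec, h.orth i j hj.symm, zero_mulVec]
    · intro hi
      exact absurd (Finset.mem_univ i) hi

theorem sum_g : ∑ i, g i = G := by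
  have h1 := h.eqv.finrank_eq
  rw [Module.finrank_fintype_fun_eq_card, Module.finrank_pi_fintype, Fintype.card_sum,
    Fintype.card_fin] at h1
  have h2 : ∀ i, finrank ℚ (Fin (g i) ⊕ Fin (g i) → ℚ) = g i + g i := fun i => by
    rw [Module.finrank_fintype_fun_eq_card, Fintype.card_sum, Fintype.card_fin]
  rw [Finset.sum_congr rfl fun i _ => h2 i, Finset.sum_add_distrib] at h1
  omega

/-- The abelian subvariety which is the product of the factors outside of `R`. -/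
def KR (_ : Dec Z g Y E F) (R : Finset ι) : Submodule ℚ (Fin G ⊕ Fin G → ℚ) where
  carrier := {x | ∀ i ∈ R, F i *ᵥ x = 0}
  zero_mem' := fun i _ => mulVec_zero _
  add_mem' := fun {a b} ha hb i hi => by rw [mulVec_add, ha i hi, hb i hi, add_zero]
  smul_mem' := fun c a ha i hi => by rw [mulVec_smul, ha i hi, smul_zero]

theorem finrank_KR (R : Finset ι) : finrank ℚ (h.KR R) + 2 * ∑ i ∈ R, g i = 2 * G := by
  -- the quotient
  let q : (Fin G ⊕ Fin G → ℚ) →ₗ[ℚ] (∀ i : R, Fin (g i.1) ⊕ Fin (g i.1) → ℚ) :=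
    { toFun := fun x i => F i.1 *ᵥ x
      map_add' := fun x y => by
        funext i
        exact mulVec_add _ _ _
      map_smul' := fun c x => by
        funext i
        exact mulVec_smul _ _ _ }
  have hq : LinearMap.ker q = h.KR R := by
    ext x
    rw [LinearMap.mem_ker]
    constructor
    · intro hx i hi
      exact congrFun hx ⟨i, hi⟩
    · intro hx
      funext i
      exact hx i.1 i.2
  have hsurj : Function.Surjective q := by
    intro y
    refine ⟨∑ i : R, E i.1 *ᵥ y i, ?_⟩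
    funext i
    change F i.1 *ᵥ (∑ i : R, E i.1 *ᵥ y i) = y i
    rw [mulVec_sum, Finset.sum_eq_single i]
    · rw [mulVec_mulVec, h.fe, one_mulVec]
    · intro j _ hj
      rw [mulVec_mulVec, h.orth i.1 j.1 fun e => hj (Subtype.ext e.symm), zero_mulVec]
    · intro hi
      exact absurd (Finset.mem_univ i) hi
  have h1 := LinearMap.finrank_range_add_finrank_ker q
  rw [LinearMap.range_eq_top.2 hsurj, finrank_top, hq, Module.finrank_fintype_fun_eq_card,
    Module.finrank_pi_fintype, Fintype.card_sum, Fintype.card_fin] at h1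
  have h2 : ∀ i : R, finrank ℚ (Fin (g i.1) ⊕ Fin (g i.1) → ℚ) = 2 * g i.1 := fun i => by
    rw [Module.finrank_fintype_fun_eq_card, Fintype.card_sum, Fintype.card_fin, two_mul]
  rw [Finset.sum_congr rfl fun i _ => h2 i, ← Finset.mul_sum,
    Finset.sum_coe_sort R g] at h1
  omega

/-- The tangent map of an inclusion. -/
theorem perE (hZ : IsUnit (imM Z).det) (i : ι) (w : Fin (g i) ⊕ Fin (g i) → ℚ) :
    perOne Z (E i *ᵥ w) = TM Z (E i) *ᵥ perOne (Y i) w :=
  TM_perOne (h.det i) hZ (h.je i).symm w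

/-- The tangent map of a projection. -/
theorem perF (hZ : IsUnit (imM Z).det) (i : ι) (w : Fin G ⊕ Fin G → ℚ) :
    perOne (Y i) (F i *ᵥ w) = TM (Y i) (F i) *ᵥ perOne Z w :=
  TM_perOne hZ (h.det i) (h.jf i) w

/-- Many derivations. -/
theorem inj (hZ : IsUnit (imM Z).det) {S : Type} [Fintype S] [DecidableEq S]
    (δ : S → Derivation ℚ ℂ ℂ) (z : S → Fin G × Fin G)
    (hδ : ∀ a b, δ a (Z (z b).1 (z b).2) = if a = b then 1 else 0) :
    Function.Injective (LinearMap.pi fun i => derL Y δ i) := by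
  rw [← LinearMap.ker_eq_bot, LinearMap.ker_eq_bot']
  intro c hc
  let Δ : Derivation ℚ ℂ ℂ := ∑ a, c a • δ a
  have hΔ : ∀ x, Δ x = ∑ a, c a * δ a x := by
    intro x
    have h1 : (⇑(∑ a, c a • δ a) : ℂ → ℂ) = ∑ a, ⇑(c a • δ a) :=
      map_sum Derivation.coeFnAddMonoidHom _ _
    have h2 := congrFun h1 x
    rw [Finset.sum_apply] at h2
    exact h2
  have h1 : ∀ i, (Y i).map Δ = 0 := by
    intro i
    have h2 : derL Y δ i c = 0 := congrFun hc i
    rw [derL_apply] at h2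
    rw [← h2]
    ext p q
    rw [Matrix.map_apply, hΔ, Matrix.sum_apply]
    rfl
  have h2 := map_der_eq_zero hZ h.det h.tot (fun i => (h.je i).symm) h.jf Δ h1
  funext b
  have h3 := congrFun (congrFun h2 (z b).1) (z b).2
  rw [Matrix.map_apply, hΔ] at h3
  rw [Finset.sum_eq_single b] at h3
  · rw [hδ, if_pos rfl, mul_one] at h3
    exact h3
  · intro a _ ha
    rw [hδ, if_neg ha, mul_zero]
  · intro hb
    exact absurd (Finset.mem_univ b) hb

end Dec

/-- Each period matrix has a decomposition. -/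
theorem exists_dec (hZ : Zᵀ = Z) (hpos : (imM Z).PosDef) :
    ∃ (ι : Type) (_ : Fintype ι) (_ : DecidableEq ι) (g : ι → ℕ)
    (Y : ∀ i, Matrix (Fin (g i)) (Fin (g i)) ℂ)
    (E : ∀ i, Matrix (Fin G ⊕ Fin G) (Fin (g i) ⊕ Fin (g i)) ℚ)
    (F : ∀ i, Matrix (Fin (g i) ⊕ Fin (g i)) (Fin G ⊕ Fin G) ℚ), Dec Z g Y E F := by
  obtain ⟨ι, i1, i2, g, Y, E, F, h1, h2, h3, h4, h5, h6, h7, h8⟩ := decomposes G G Z le_rfl hZ hpos
  exact ⟨ι, i1, i2, g, Y, E, F, ⟨h1, h2, h3, h4, h5, h6, h7, h8⟩⟩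

end

end Pool.Agent.Q63.MP
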