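import Mathlib
import Pool.Agent.Q63.MP.Dec
import Pool.Agent.Y90.Tori

/-!
# The powers of an abelian variety and the products of its simple factors
-/

set_option linter.unusedSectionVars false

namespace Pool.Agent.Q63.MP

open Matrix Module Pool.Agent.W437.HC Pool.Agent.W437.HD Pool.Agent.W437.HP Pool.Agent.W437.HQ
  Pool.Agent.TH504.CB Pool.Agent.H204R3.CM Pool.Agent.W437.HR Pool.Agent.TH504.VY

noncomputable section

/-- Pull-backs of products of divisor classes. -/
theorem divisorSpan_comp {W T W' T' : Type} [AddCommGroup W] [Module ℚ W]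
    [AddCommGroup T] [Module ℂ T] [AddCommGroup W'] [Module ℚ W'] [AddCommGroup T'] [Module ℂ T']
    {per : W →+ T} {per' : W' →+ T'} (Φ : W →ₗ[ℚ] W') (Ψ : T →ₗ[ℂ] T')
    (h : ∀ w, Ψ (per w) = per' (Φ w)) {k : ℕ} {f : W' [⋀^Fin k]→ₗ[ℚ] ℚ}
    (hf : f ∈ divisorSpan per' k) : f.compLinearMap Φ ∈ divisorSpan per k := by
  induction hf using Submodule.span_induction with
  | mem f hf =>
    obtain ⟨r, e, C, hC, hf⟩ := hf
    refine Submodule.subset_span ⟨r, e, fun l => (C l).compLinearMap Φ,
      fun l => isHodge_comp Φ Ψ h (hC l), fun w => ?_⟩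
    rw [AlternatingMap.compLinearMap_apply, hf]
    refine Finset.sum_congr rfl fun σ _ => ?_
    congr 1
    refine Finset.prod_congr rfl fun l _ => ?_
    rw [AlternatingMap.compLinearMap_apply]
    congr 1
    funext a
    fin_cases a <;> rfl
  | zero => exact Submodule.zero_mem _
  | add x y _ _ hx hy => exact Submodule.add_mem _ hx hy
  | smul a y _ hy => exact Submodule.smul_mem _ a hy

variable {G : ℕ} {Z : Matrix (Fin G) (Fin G) ℂ} {ι : Type} [Fintype ι] [DecidableEq ι] {g : ι → ℕ}
  {Y : ∀ i, Matrix (Fin (g i)) (Fin (g i)) ℂ}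
  {E : ∀ i, Matrix (Fin G ⊕ Fin G) (Fin (g i) ⊕ Fin (g i)) ℚ}
  {F : ∀ i, Matrix (Fin (g i) ⊕ Fin (g i)) (Fin G ⊕ Fin G) ℚ}

namespace Dec

variable (h : Dec Z g Y E F) {n N : ℕ} (e : Fin N ≃ Fin n × ι)
include h

/-- The map of the homologies from the power to the product. -/
def toP (_ : Dec Z g Y E F) (e : Fin N ≃ Fin n × ι) : (Fin n → Fin G ⊕ Fin G → ℚ) →ₗ[ℚ]
    (∀ k, Fin (g (e k).2) ⊕ Fin (g (e k).2) → ℚ) where
  toFun x := fun k => F (e k).2 *ᵥ x (e k).1
  map_add' x y := by
    funext k
    exact mulVec_add _ _ _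
  map_smul' c x := by
    funext k
    exact mulVec_smul (F (e k).2) c (x (e k).1)

/-- The map of the homologies from the product to the power. -/
def toA (_ : Dec Z g Y E F) (e : Fin N ≃ Fin n × ι) :
    (∀ k, Fin (g (e k).2) ⊕ Fin (g (e k).2) → ℚ) →ₗ[ℚ] (Fin n → Fin G ⊕ Fin G → ℚ) where
  toFun y := fun j => ∑ k, if (e k).1 = j then E (e k).2 *ᵥ y k else 0
  map_add' x y := by
    funext j
    rw [Pi.add_apply, ← Finset.sum_add_distrib]
    refine Finset.sum_congr rfl fun k _ => ?_
    split_ifs
    · exact mulVec_add _ _ _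
    · exact (add_zero _).symm
  map_smul' c x := by
    funext j
    rw [Pi.smul_apply, Finset.smul_sum]
    refine Finset.sum_congr rfl fun k _ => ?_
    split_ifs
    · exact mulVec_smul (E (e k).2) c (x k)
    · exact (smul_zero _).symm

/-- The map of the tangent spaces from the power to the product. -/
def tP (_ : Dec Z g Y E F) (e : Fin N ≃ Fin n × ι) : (Fin n → Fin G → ℂ) →ₗ[ℂ]
    (∀ k, Fin (g (e k).2) → ℂ) where
  toFun x := fun k => TM (Y (e k).2) (F (e k).2) *ᵥ x (e k).1
  map_add' x y := by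
    funext k
    exact mulVec_add _ _ _
  map_smul' c x := by
    funext k
    exact mulVec_smul (TM (Y (e k).2) (F (e k).2)) c (x (e k).1)

/-- The map of the tangent spaces from the product to the power. -/
def tA (_ : Dec Z g Y E F) (e : Fin N ≃ Fin n × ι) :
    (∀ k, Fin (g (e k).2) → ℂ) →ₗ[ℂ] (Fin n → Fin G → ℂ) where
  toFun y := fun j => ∑ k, if (e k).1 = j then TM Z (E (e k).2) *ᵥ y k else 0
  map_add' x y := by
    funext j
    rw [Pi.add_apply, ← Finset.sum_add_distrib]
    refine Finset.sum_congr rfl fun k _ => ?_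
    split_ifs
    · exact mulVec_add _ _ _
    · exact (add_zero _).symm
  map_smul' c x := by
    funext j
    rw [Pi.smul_apply, Finset.smul_sum]
    refine Finset.sum_congr rfl fun k _ => ?_
    split_ifs
    · exact mulVec_smul (TM Z (E (e k).2)) c (x k)
    · exact (smul_zero _).symm

theorem toA_toP (x : Fin n → Fin G ⊕ Fin G → ℚ) : h.toA e (h.toP e x) = x := by
  funext j
  change ∑ k, (if (e k).1 = j then E (e k).2 *ᵥ (F (e k).2 *ᵥ x (e k).1) else 0) = x j
  rw [Equiv.sum_comp e fun p : Fin n × ι => if p.1 = j then E p.2 *ᵥ (F p.2 *ᵥ x p.1) else 0,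
    Fintype.sum_prod_type, Finset.sum_eq_single j]
  · rw [← h.sum_fe (x j)]
    refine Finset.sum_congr rfl fun i _ => ?_
    exact if_pos rfl
  · intro b _ hb
    exact Finset.sum_eq_zero fun i _ => if_neg hb
  · intro hj
    exact absurd (Finset.mem_univ j) hj

theorem tP_per (hZ : IsUnit (imM Z).det) (x : Fin n → Fin G ⊕ Fin G → ℚ) :
    h.tP e (perPow Z n x) = productOf Y (fun k => (e k).2) (h.toP e x) := by
  funext k
  exact (h.perF hZ (e k).2 (x (e k).1)).symm

theorem tA_per (hZ : IsUnit (imM Z).det) (y : ∀ k, Fin (g (e k).2) ⊕ Fin (g (e k).2) → ℚ) :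
    h.tA e (productOf Y (fun k => (e k).2) y) = perPow Z n (h.toA e y) := by
  funext j
  change (∑ k, if (e k).1 = j then TM Z (E (e k).2) *ᵥ perOne (Y (e k).2) (y k) else 0) =
    perOne Z (∑ k, if (e k).1 = j then E (e k).2 *ᵥ y k else 0)
  rw [map_sum]
  refine Finset.sum_congr rfl fun k _ => ?_
  split_ifs
  · exact (h.perE hZ (e k).2 (y k)).symm
  · exact (map_zero _).symm

variable {R : Finset ι}

/-- Hodge classes come from the quotient. -/
theorem from_quotient (hZ : IsUnit (imM Z).det) (hR : HodgeClassesDecompose Y R) :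
    HodgeClassesFromQuotient Z (h.KR R) := by
  intro n k f hf
  let e : Fin (Fintype.card (Fin n × ι)) ≃ Fin n × ι := (Fintype.equivFin (Fin n × ι)).symm
  have h1 : IsHodge (productOf Y fun k => (e k).2) (f.compLinearMap (h.toA e)) :=
    isHodge_comp (h.toA e) (h.tA e) (h.tA_per e hZ) hf
  have h2 := hR _ (fun k => (e k).2) k _ h1
  have h3 : f = (f.compLinearMap (h.toA e)).compLinearMap (h.toP e) := by
    ext v
    rw [AlternatingMap.compLinearMap_apply, AlternatingMap.compLinearMap_apply]
    congr 1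
    funext a
    exact (h.toA_toP e (v a)).symm
  rw [h3]
  obtain ⟨f', hf'⟩ : ∃ f', f' = f.compLinearMap (h.toA e) := ⟨_, rfl⟩
  rw [← hf'] at h2 ⊢
  clear h3 hf' h1
  induction h2 using Submodule.span_induction with
  | mem f' hf' =>
    obtain ⟨r, l, e', B, η, hB, hη, hP, hf'⟩ := hf'
    refine Submodule.subset_span ⟨r, l, e', fun s => (B s).compLinearMap (h.toP e),
      η.compLinearMap (h.toP e), fun s => isHodge_comp (h.toP e) (h.tP e) (h.tP_per e hZ) (hB s),
      isHodge_comp (h.toP e) (h.tP e) (h.tP_per e hZ) hη, ?_, fun v => ?_⟩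
    · intro v v' hv
      rw [AlternatingMap.compLinearMap_apply, AlternatingMap.compLinearMap_apply]
      refine hP _ _ fun a j hj => ?_
      change F (e j).2 *ᵥ v a (e j).1 = F (e j).2 *ᵥ v' a (e j).1
      have h4 := hv a (e j).1 (e j).2 hj
      rw [mulVec_sub, sub_eq_zero] at h4
      exact h4
    · rw [AlternatingMap.compLinearMap_apply, hf']
      refine Finset.sum_congr rfl fun σ _ => ?_
      congr 1
      congr 1
      refine Finset.prod_congr rfl fun l _ => ?_
      rw [AlternatingMap.compLinearMap_apply]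
      congr 1
      funext a
      fin_cases a <;> rfl
  | zero => exact Submodule.zero_mem _
  | add x y _ _ hx hy => exact Submodule.add_mem _ hx hy
  | smul a y _ hy => exact Submodule.smul_mem _ a hy

/-- Hodge classes are divisorial if the quotient is small. -/
theorem from_divisors (hZ : IsUnit (imM Z).det) (hR : HodgeClassesDivisorial Y R) {n : ℕ}
    (hn : n * ∑ i ∈ R, g i ≤ 3) : HodgeClassesFromDivisors Z n := by
  intro k f hf
  let e : Fin (Fintype.card (Fin n × ι)) ≃ Fin n × ι := (Fintype.equivFin (Fin n × ι)).symm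
  have h1 : IsHodge (productOf Y fun k => (e k).2) (f.compLinearMap (h.toA e)) :=
    isHodge_comp (h.toA e) (h.tA e) (h.tA_per e hZ) hf
  have h2 := hR _ (fun k => (e k).2) (by
    refine le_trans (le_of_eq ?_) hn
    rw [Finset.sum_filter, Equiv.sum_comp e fun p : Fin n × ι => if p.2 ∈ R then g p.2 else 0,
      Fintype.sum_prod_type]
    change (∑ _j : Fin n, ∑ i, if i ∈ R then g i else 0) = n * ∑ i ∈ R, g i
    rw [Finset.sum_const, Finset.card_univ, Fintype.card_fin, smul_eq_mul, ← Finset.sum_filter]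
    congr 1
    refine Finset.sum_congr ?_ fun _ _ => rfl
    ext i
    simp) k _ h1
  have h3 : f = (f.compLinearMap (h.toA e)).compLinearMap (h.toP e) := by
    ext v
    rw [AlternatingMap.compLinearMap_apply, AlternatingMap.compLinearMap_apply]
    congr 1
    funext a
    exact (h.toA_toP e (v a)).symm
  rw [h3]
  exact divisorSpan_comp (h.toP e) (h.tP e) (h.tP_per e hZ) h2

/-- The kernel is an abelian subvariety. -/
theorem isAbelian_KR (hZ : IsUnit (imM Z).det) (R : Finset ι) :
    IsAbelianSubvariety Z (h.KR R) := by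
  have hmem : ∀ i, i ∉ R → ∀ t : Fin (g i) → ℂ,
      TM Z (E i) *ᵥ t ∈ Submodule.span ℝ (perOne Z '' (h.KR R : Set (Fin G ⊕ Fin G → ℚ))) := by
    intro i hi t
    have h1 : t ∈ Submodule.span ℝ (Set.range (perOne (Y i))) := by
      have h2 : Submodule.span ℝ (Set.range (perOne (Y i))) = ⊤ :=
        (Pool.Agent.Y90.AVZ ⟨h.symm i, h.pos i⟩).span
      rw [h2]
      trivial
    induction h1 using Submodule.span_induction with
    | mem t ht =>
      obtain ⟨w, rfl⟩ := ht
      rw [← h.perE hZ]
      refine Submodule.subset_span ⟨_, ?_, rfl⟩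
      intro j hj
      rw [mulVec_mulVec, h.orth j i (by rintro rfl; exact hi hj), zero_mulVec]
    | zero =>
      rw [mulVec_zero]
      exact Submodule.zero_mem _
    | add x y _ _ hx hy =>
      rw [mulVec_add]
      exact Submodule.add_mem _ hx hy
    | smul a y _ hy =>
      rw [mulVec_smul]
      exact Submodule.smul_mem _ a hy
  intro x hx
  induction hx using Submodule.span_induction with
  | mem x hx =>
    obtain ⟨w, hw, rfl⟩ := hx
    rw [← h.sum_fe w, map_sum, Finset.smul_sum]
    refine Submodule.sum_mem _ fun i _ => ?_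
    by_cases hi : i ∈ R
    · rw [hw i hi, mulVec_zero, map_zero, smul_zero]
      exact Submodule.zero_mem _
    · rw [h.perE hZ, ← mulVec_smul]
      exact hmem i hi _
  | zero =>
    rw [smul_zero]
    exact Submodule.zero_mem _
  | add x y _ _ hx hy =>
    rw [smul_add]
    exact Submodule.add_mem _ hx hy
  | smul a y _ hy =>
    rw [smul_comm]
    exact Submodule.smul_mem _ a hy

end Dec

end

end Pool.Agent.Q63.MP
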