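import Mathlib
import Pool.Agent.Q63.MP.Tr
import Pool.Agent.Y91.PS.Point

/-!
# Hodge classes on the product of the power of an abelian variety and a variety
-/

set_option linter.unusedSectionVars false

namespace Pool.Agent.Q63.MP

open Matrix Module Pool.Agent.W437.HC Pool.Agent.W437.HD Pool.Agent.W437.HP Pool.Agent.W437.HQ
  Pool.Agent.TH504.CB Pool.Agent.H204R3.CM Pool.Agent.W437.HR Pool.Agent.TH504.VY
  Pool.Agent.TH131.GHC Pool.Agent.Y91.PS

noncomputable section

section pull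

variable {W T W' T' : Type} [AddCommGroup W] [Module ℚ W] [AddCommGroup T] [Module ℂ T]
  [AddCommGroup W'] [Module ℚ W'] [AddCommGroup T'] [Module ℂ T'] {per : W →+ T}
  {per' : W' →+ T'} {v : ℕ} {V : Coh v}

/-- Pull-backs of classes on products. -/
def pullZ (Φ : W →ₗ[ℚ] W') : HAZ W' v →ₗ[ℚ] HAZ W v where
  toFun F := fun k => (F k).compLinearMap Φ
  map_add' x y := by
    funext k
    rfl
  map_smul' c x := by
    funext k
    rfl

theorem pullZ_apply (Φ : W →ₗ[ℚ] W') (F : HAZ W' v) (k : ℕ) :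
    pullZ Φ F k = (F k).compLinearMap Φ := rfl

theorem pullZ_cross (Φ : W →ₗ[ℚ] W') {k : ℕ} (f : W' [⋀^Fin k]→ₗ[ℚ] ℚ) (x : Fin v → ℚ) :
    pullZ Φ (cross f x) = cross (f.compLinearMap Φ) x := by
  funext j
  rw [pullZ_apply]
  unfold cross
  by_cases hj : j = k
  · subst hj
    rw [Pi.single_eq_same, Pi.single_eq_same]
    rfl
  · rw [Pi.single_eq_of_ne hj, Pi.single_eq_of_ne hj]
    rfl

/-- Pull-backs of complex classes. -/
def pullC (Ψ : T →ₗ[ℂ] T') : HAZC T' v →ₗ[ℂ] HAZC T v where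
  toFun F := fun k => (F k).compLinearMap (Ψ.restrictScalars ℝ)
  map_add' x y := by
    funext k
    rfl
  map_smul' c x := by
    funext k
    rfl

theorem pullC_apply (Ψ : T →ₗ[ℂ] T') (F : HAZC T' v) (k : ℕ) (u : Fin k → T) :
    pullC Ψ F k u = F k (fun l => Ψ (u l)) := rfl

theorem extends_pull (Φ : W →ₗ[ℚ] W') (Ψ : T →ₗ[ℂ] T') (h : ∀ w, Ψ (per w) = per' (Φ w))
    {F : HAZ W' v} {G : HAZC T' v} (hF : Extends per' F G) :
    Extends per (pullZ Φ F) (pullC Ψ G) := by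
  intro k w
  rw [pullC_apply]
  have h1 := hF k fun l => Φ (w l)
  have h2 : (fun l => Ψ (per (w l))) = fun l => per' (Φ (w l)) := funext fun l => h (w l)
  rw [h2, h1]
  rfl

theorem hasType_pull (Ψ : T →ₗ[ℂ] T') {G : HAZC T' v} {n : ℤ} (hG : HasType V n G) :
    HasType V n (pullC Ψ G) := by
  intro k u
  have h1 := hG k fun l => Ψ (u l)
  rw [pullC_apply, ← h1]
  congr 2
  refine Finset.sum_congr rfl fun l _ => ?_
  rw [pullC_apply]
  congr 1
  funext a
  by_cases ha : a = l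
  · subst ha
    rw [Function.update_self, Function.update_self, map_smul]
  · rw [Function.update_of_ne ha, Function.update_of_ne ha]

theorem isHodgeOnProduct_pull (Φ : W →ₗ[ℚ] W') (Ψ : T →ₗ[ℂ] T')
    (h : ∀ w, Ψ (per w) = per' (Φ w)) {F : HAZ W' v} (hF : IsHodgeOnProduct per' V F) :
    IsHodgeOnProduct per V (pullZ Φ F) := by
  obtain ⟨G, h1, h2⟩ := hF
  exact ⟨pullC Ψ G, extends_pull Φ Ψ h h1, hasType_pull Ψ h2⟩

theorem crossSpan_pull (Φ : W →ₗ[ℚ] W') (Ψ : T →ₗ[ℂ] T')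
    (h : ∀ w, Ψ (per w) = per' (Φ w)) {F : HAZ W' v} (hF : F ∈ crossSpan per' V) :
    pullZ Φ F ∈ crossSpan per V := by
  induction hF using Submodule.span_induction with
  | mem F hF =>
    obtain ⟨k, f, x, hf, hx, rfl⟩ := hF
    exact Submodule.subset_span ⟨k, f.compLinearMap Φ, x, divisorSpan_comp Φ Ψ h hf, hx,
      pullZ_cross Φ f x⟩
  | zero =>
    rw [map_zero]
    exact Submodule.zero_mem _
  | add x y _ _ hx hy =>
    rw [map_add]
    exact Submodule.add_mem _ hx hy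
  | smul a y _ hy =>
    rw [map_smul]
    exact Submodule.smul_mem _ a hy

end pull

/-- Hodge classes on products with independent Hodge structures. -/
theorem free_cross {n : ℕ} {g : Fin n → ℕ} {Z : ∀ i, Matrix (Fin (g i)) (Fin (g i)) ℂ} {v : ℕ}
    {V : Coh v} (h : IsFree Z V) {F : HAZ (∀ i, Fin (g i) ⊕ Fin (g i) → ℚ) v}
    (hF : IsHodgeOnProduct (perProd Z) V F) : F ∈ crossSpan (perProd Z) V := by
  refine h.mem_of_integrals hF fun k j e f hf β hβ => Submodule.subset_span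
    ⟨k, f, fibreIntegral e F β, hf, h.integral_mem hF e β, rfl⟩

variable {G : ℕ} {Z : Matrix (Fin G) (Fin G) ℂ} {ι : Type} [Fintype ι] [DecidableEq ι] {g : ι → ℕ}
  {Y : ∀ i, Matrix (Fin (g i)) (Fin (g i)) ℂ}
  {E : ∀ i, Matrix (Fin G ⊕ Fin G) (Fin (g i) ⊕ Fin (g i)) ℚ}
  {F : ∀ i, Matrix (Fin (g i) ⊕ Fin (g i)) (Fin G ⊕ Fin G) ℚ}

/-- Hodge classes on the product of a power and a variety. -/
theorem Dec.on_times (h : Dec Z g Y E F) (hZ : IsUnit (imM Z).det)
    (hp : ∀ i, HasPcs (DZ (Y i))) {v : ℕ} (V : Coh v)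
    (hder : ∀ i, ∃ δ : Derivation ℚ ℂ ℂ, V.z.map δ = 0 ∧ (Y i).map δ ≠ 0) (n : ℕ) :
    HodgeClassesOnTimes Z n V := by
  intro f hf
  let e : Fin (Fintype.card (Fin n × ι)) ≃ Fin n × ι := (Fintype.equivFin (Fin n × ι)).symm
  have hfree : IsFree (fun k => Y (e k).2) V :=
    { symm := fun k => h.symm _
      pos := fun k => h.pos _
      pcs := fun k => hp _
      ind := indep_of_der (fun k => h.symm (e k).2) (fun k => h.pos (e k).2)
        (fun k => hp (e k).2) (fun k => h.simple (e k).2) V fun k => hder (e k).2 }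
  have h1 : IsHodgeOnProduct (perProd fun k => Y (e k).2) V (pullZ (h.toA e) f) :=
    isHodgeOnProduct_pull (h.toA e) (h.tA e) (h.tA_per e hZ) hf
  have h2 := free_cross hfree h1
  have h3 : f = pullZ (h.toP e) (pullZ (h.toA e) f) := by
    funext k
    rw [pullZ_apply, pullZ_apply]
    ext1 v
    rw [AlternatingMap.compLinearMap_apply, AlternatingMap.compLinearMap_apply]
    congr 1
    funext a
    exact (h.toA_toP e (v a)).symm
  rw [h3]
  exact crossSpan_pull (h.toP e) (h.tP e) (h.tP_per e hZ) h2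

end

end Pool.Agent.Q63.MP
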