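import Mathlib
import Pool.Agent.Q63.MP.Ty

/-!
# Abelian varieties with many algebraically independent periods
-/

set_option linter.unusedSectionVars false

namespace Pool.Agent.Q63.MP

open Matrix Module Pool.Agent.W437.HC Pool.Agent.W437.HD Pool.Agent.W437.HP Pool.Agent.W437.HQ
  Pool.Agent.TH504.CB Pool.Agent.H204R3.CM Pool.Agent.W437.HR Pool.Agent.TH504.VY
  Pool.Agent.TH131.GHC Pool.Agent.Y91.PS

noncomputable section

variable {G : ℕ} {Z : Matrix (Fin G) (Fin G) ℂ}

/-- Hodge classes on the powers of an abelian variety with many periods. -/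
theorem main (hZ : Zᵀ = Z) (hpos : (imM Z).PosDef) {v : ℕ} (V : Coh v) (K : Subfield ℂ)
    (hK : ∀ a b, V.z a b ∈ K) (s : Finset (Fin G × Fin G))
    (hs : AlgebraicIndependent K fun a : s => Z a.1.1 a.1.2) :
    ∃ (B : Submodule ℚ (Fin G ⊕ Fin G → ℚ)) (r : ℕ), IsAbelianSubvariety Z B ∧
      finrank ℚ B + 2 * r = 2 * G ∧ SmallQuotient G s.card r ∧ HodgeClassesFromQuotient Z B ∧
      (∀ n, n * r ≤ 3 → HodgeClassesFromDivisors Z n) ∧
      (r = 0 → ∀ n, HodgeClassesOnTimes Z n V) := by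
  classical
  obtain ⟨ι, i1, i2, g, Y, E, F, h⟩ := exists_dec hZ hpos
  have hdet : IsUnit (imM Z).det := hpos.isUnit.map Matrix.detMonoidHom
  have hδ : ∀ a : s, ∃ δ : Derivation ℚ ℂ ℂ, (∀ x : K, δ (algebraMap K ℂ x) = 0) ∧
      ∀ b : s, δ (Z b.1.1 b.1.2) = if a = b then 1 else 0 := fun a =>
    exists_derivationK hs fun b => if a = b then 1 else 0
  choose δ hδK hδ using hδ
  obtain ⟨R, hsmall, hdec, hdiv, hmov⟩ := main_der (Z := Y) h.symm h.pos h.simple δ
    (h.inj hdet δ (fun a => a.1) hδ)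
  refine ⟨h.KR R, ∑ i ∈ R, g i, h.isAbelian_KR hdet R, h.finrank_KR R, ?_,
    h.from_quotient hdet hdec, fun n hn => h.from_divisors hdet hdiv hn, fun hr => ?_⟩
  · intro ρ h1 h2
    have h3 := hsmall (fun _ => 1) (fun _ => le_rfl) ρ
    simp only [one_mul, h.sum_g, Fintype.card_coe] at h3
    exact h3 h1 h2
  · have hR : R = ∅ := by
      rw [Finset.sum_eq_zero_iff] at hr
      by_contra hne
      obtain ⟨i, hi⟩ := Finset.nonempty_iff_ne_empty.2 hne
      exact (h.gpos i).ne' (hr i hi)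
    refine h.on_times hdet (fun i => (hmov i (by rw [hR]; exact Finset.notMem_empty i)).1) V
      fun i => ?_
    obtain ⟨-, u, hu⟩ := hmov i (by rw [hR]; exact Finset.notMem_empty i)
    rw [derL_apply] at hu
    obtain ⟨a, -, ha⟩ := Finset.exists_ne_zero_of_sum_ne_zero hu
    refine ⟨δ a, ?_, fun h0 => ha ?_⟩
    · ext x y
      exact hδK a ⟨V.z x y, hK x y⟩
    · rw [h0, smul_zero]

end

end Pool.Agent.Q63.MP
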